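import Mathlib

/-!
# Signed 2-spanning sets in cyclic groups: `φ ≤ (√3/2 + o(1)) √n` (MP_8aa97c_co)

For every `n ≥ 12` we have `φ±(Z_n,[0,2]) ≤ (√3/2) √n + 2139 n^(1/4)`; in particular
`limsup φ±(Z_n,[0,2]) / √n ≤ √3/2 < 1`.

The construction: write `n = j T - w` with `j ≈ 2h`, `T ≈ 6h`, `w ≈ 2h`, `n ≈ 12 h^2`, and think of
`Z_n` as the discrete torus `Z^2 / Λ` by `(x, y) ↦ x + T y`, where `Λ` is close to a hexagonal
lattice for which a hexagon cut into three parallelograms is a fundamental domain.  The signed set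
consists of three segments of length `2h` in the directions `(1,0)`, `(0,1)`, `(1,1)`, each centred
at a different point of order two of the torus, so that each segment is (up to bounded errors) equal
to its negative, and the three sums of two different segments tile the torus.
-/

set_option autoImplicit false

namespace Pool.Agent.Results.MP_8aa97c_co.HexagonalBound

/-- `A` is `s`-spanning in `Z_n`: every element is an integral combination of the elements of `A`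
with coefficients of absolute sum at most `s`. -/
def Spanning (n s : ℕ) (A : Finset (ZMod n)) : Prop :=
  ∀ g : ZMod n, ∃ c : ZMod n → ℤ, (∑ a ∈ A, (c a).natAbs) ≤ s ∧ g = ∑ a ∈ A, c a • a

/-- `phi n s` is the least size of an `s`-spanning subset of `Z_n`. -/
noncomputable def phi (n s : ℕ) : ℕ :=
  sInf {m : ℕ | ∃ A : Finset (ZMod n), A.card = m ∧ Spanning n s A}

theorem spanning_of_pairs {n : ℕ} {A : Finset (ZMod n)}
    (h : ∀ g : ZMod n, ∃ a ∈ A, ∃ b ∈ A, ∃ u v : ℤ, u.natAbs ≤ 1 ∧ v.natAbs ≤ 1 ∧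
      g = u • a + v • b) :
    Spanning n 2 A := by
  classical
  intro g
  obtain ⟨a, ha, b, hb, u, v, hu, hv, rfl⟩ := h g
  refine ⟨fun x => (if x = a then u else 0) + (if x = b then v else 0), ?_, ?_⟩
  · calc ∑ x ∈ A, ((if x = a then u else 0) + (if x = b then v else 0) : ℤ).natAbs
        ≤ ∑ x ∈ A, ((if x = a then 1 else 0) + (if x = b then 1 else 0)) := by
          refine Finset.sum_le_sum fun x _ => (Int.natAbs_add_le _ _).trans ?_
          refine Nat.add_le_add ?_ ?_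
          · split_ifs
            · exact hu
            · simp
          · split_ifs
            · exact hv
            · simp
      _ ≤ 2 := by
          rw [Finset.sum_add_distrib, Finset.sum_ite_eq', Finset.sum_ite_eq']
          simp [ha, hb]
  · simp only [add_smul, Finset.sum_add_distrib, ite_smul, zero_smul]
    rw [Finset.sum_ite_eq', Finset.sum_ite_eq']
    simp [ha, hb]

/-- the three half segments, as sets of integers -/
def Seg (h T E : ℤ) (p : ℤ) : Prop :=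
  (2 * h - E ≤ p ∧ p ≤ 3 * h + E) ∨ (∃ y, -E ≤ y ∧ y ≤ h + E ∧ p = 2 * h + T * y) ∨
    (∃ i, -E ≤ i ∧ i ≤ h + E ∧ p = 4 * h + i + T * i)

/-- signed sums of two elements -/
def Rep (n h T E z : ℤ) : Prop :=
  ∃ p q u v k : ℤ, Seg h T E p ∧ Seg h T E q ∧ (u = 1 ∨ u = -1) ∧ (v = 1 ∨ v = -1) ∧
    z = u * p + v * q + k * n

theorem seg1 {h T E x : ℤ} (h1 : 2 * h - E ≤ x) (h2 : x ≤ 3 * h + E) : Seg h T E x :=
  Or.inl ⟨h1, h2⟩

theorem seg2 {h T E y : ℤ} (h1 : -E ≤ y) (h2 : y ≤ h + E) : Seg h T E (2 * h + T * y) :=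
  Or.inr (Or.inl ⟨y, h1, h2, rfl⟩)

theorem seg3 {h T E i : ℤ} (h1 : -E ≤ i) (h2 : i ≤ h + E) : Seg h T E (4 * h + i + T * i) :=
  Or.inr (Or.inr ⟨i, h1, h2, rfl⟩)

theorem cover12 {n h j T w e x y : ℤ} (hn : n = j * T - w)
    (hj2 : j ≤ 2 * h + e) (hT1 : 6 * h - e ≤ T) (hT2 : T ≤ 6 * h + e)
    (hw1 : 2 * h - e ≤ w) (hw2 : w ≤ 2 * h + e)
    (hx1 : 4 * h ≤ x) (hx2 : x ≤ T) (hy1 : 0 ≤ y) (hy2 : y ≤ j) :
    Rep n h T (8 * e + 4) (x + T * y) := by
  rcases le_total y h with hy | hy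
  · rcases le_total x (5 * h) with hx | hx
    · exact ⟨x - 2 * h, 2 * h + T * y, 1, 1, 0, seg1 (by omega) (by omega),
        seg2 (by omega) (by omega), Or.inl rfl, Or.inl rfl, by ring⟩
    · exact ⟨T + 2 * h - x, 2 * h + T * (y + 1), -1, 1, 0, seg1 (by omega) (by omega),
        seg2 (by omega) (by omega), Or.inr rfl, Or.inl rfl, by ring⟩
  · rcases le_total x (5 * h) with hx | hx
    · exact ⟨x - T + w + 2 * h, 2 * h + T * (j - 1 - y), 1, -1, 1, seg1 (by omega) (by omega),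
        seg2 (by omega) (by omega), Or.inl rfl, Or.inr rfl, by rw [hn]; ring⟩
    · exact ⟨2 * T - w - 2 * h - x, 2 * h + T * (j - 2 - y), -1, -1, 1,
        seg1 (by omega) (by omega), seg2 (by omega) (by omega), Or.inr rfl, Or.inr rfl,
        by rw [hn]; ring⟩

theorem cover13 {n h j T w e x y : ℤ} (hn : n = j * T - w)
    (hj1 : 2 * h - e ≤ j) (hj2 : j ≤ 2 * h + e) (hT1 : 6 * h - e ≤ T) (hT2 : T ≤ 6 * h + e)
    (hw1 : 2 * h - e ≤ w) (hw2 : w ≤ 2 * h + e)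
    (hx1 : y ≤ x) (hx2 : x ≤ y + 2 * h) (hy1 : 0 ≤ y) (hy2 : y ≤ j) :
    Rep n h T (8 * e + 4) (x + T * y) := by
  rcases le_total y h with hy | hy
  · rcases le_total (x - y) h with hx | hx
    · exact ⟨x - y + 1 + T - 4 * h, 4 * h + (y - 1) + T * (y - 1), 1, 1, 0,
        seg1 (by omega) (by omega), seg3 (by omega) (by omega), Or.inl rfl, Or.inl rfl, by ring⟩
    · exact ⟨4 * h + y - x, 4 * h + y + T * y, -1, 1, 0,
        seg1 (by omega) (by omega), seg3 (by omega) (by omega), Or.inr rfl, Or.inl rfl, by ring⟩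
  · rcases le_total (x - y) h with hx | hx
    · exact ⟨x - T + w + 4 * h + j - 1 - y, 4 * h + (j - 1 - y) + T * (j - 1 - y), 1, -1, 1,
        seg1 (by omega) (by omega), seg3 (by omega) (by omega), Or.inl rfl, Or.inr rfl,
        by rw [hn]; ring⟩
    · exact ⟨2 * T - w - 4 * h - j + 2 + y - x, 4 * h + (j - 2 - y) + T * (j - 2 - y), -1, -1, 1,
        seg1 (by omega) (by omega), seg3 (by omega) (by omega), Or.inr rfl, Or.inr rfl,
        by rw [hn]; ring⟩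

theorem cover23 {n h j T w e x y : ℤ} (hn : n = j * T - w)
    (hj1 : 2 * h - e ≤ j) (hj2 : j ≤ 2 * h + e) (hT1 : 6 * h - e ≤ T) (hT2 : T ≤ 6 * h + e)
    (hw1 : 2 * h - e ≤ w) (hw2 : w ≤ 2 * h + e)
    (hx1 : -e ≤ x) (hx2 : x ≤ 2 * h + e) (hy1 : -(2 * e) ≤ y - x) (hy2 : y - x ≤ 2 * h + 2 * e) :
    Rep n h T (8 * e + 4) (x + T * y) := by
  rcases le_total x h with hx | hx
  · rcases le_total (y - x) h with hy | hy
    · obtain ⟨i, hi⟩ : ∃ i : ℤ, i = x + T - 6 * h := ⟨_, rfl⟩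
      exact ⟨2 * h + T * (y - 1 - i), 4 * h + i + T * i, 1, 1, 0,
        seg2 (by omega) (by omega), seg3 (by omega) (by omega), Or.inl rfl, Or.inl rfl,
        by rw [hi]; ring⟩
    · obtain ⟨i, hi⟩ : ∃ i : ℤ, i = x + w - 2 * h := ⟨_, rfl⟩
      exact ⟨2 * h + T * (j + i - y), 4 * h + i + T * i, -1, 1, 1,
        seg2 (by omega) (by omega), seg3 (by omega) (by omega), Or.inr rfl, Or.inl rfl,
        by rw [hi, hn]; ring⟩
  · rcases le_total (y - x) h with hy | hy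
    · obtain ⟨i, hi⟩ : ∃ i : ℤ, i = T - w - 2 * h - x := ⟨_, rfl⟩
      exact ⟨2 * h + T * (y + 1 + i - j), 4 * h + i + T * i, 1, -1, 1,
        seg2 (by omega) (by omega), seg3 (by omega) (by omega), Or.inl rfl, Or.inr rfl,
        by rw [hi, hn]; ring⟩
    · obtain ⟨i, hi⟩ : ∃ i : ℤ, i = 2 * T - 2 * w - 6 * h - x := ⟨_, rfl⟩
      exact ⟨2 * h + T * (2 * j - 2 - i - y), 4 * h + i + T * i, -1, -1, 2,
        seg2 (by omega) (by omega), seg3 (by omega) (by omega), Or.inr rfl, Or.inr rfl,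
        by rw [hi, hn]; ring⟩

/-- every residue is a signed sum of two elements of the three half segments -/
theorem cover {n h j T w e : ℤ} (hn : n = j * T - w)
    (hj1 : 2 * h - e ≤ j) (hj2 : j ≤ 2 * h + e) (hT1 : 6 * h - e ≤ T) (hT2 : T ≤ 6 * h + e)
    (hw1 : 2 * h - e ≤ w) (hw2 : w ≤ 2 * h + e) (hw0 : 0 ≤ w) (hT0 : 0 < T)
    (z : ℤ) (hz0 : 0 ≤ z) (hz : z < n) : Rep n h T (8 * e + 4) z := by
  obtain ⟨x, hx⟩ : ∃ x : ℤ, x = z % T := ⟨_, rfl⟩
  obtain ⟨y, hy⟩ : ∃ y : ℤ, y = z / T := ⟨_, rfl⟩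
  have hxy : z = x + T * y := by rw [hx, hy]; exact (Int.emod_add_mul_ediv z T).symm
  have hx0 : 0 ≤ x := by rw [hx]; exact Int.emod_nonneg _ hT0.ne'
  have hxT : x < T := by rw [hx]; exact Int.emod_lt_of_pos _ hT0
  have hy0 : 0 ≤ y := by rw [hy]; exact Int.ediv_nonneg hz0 hT0.le
  have hyj : y < j := by
    rw [hy]
    exact Int.ediv_lt_of_lt_mul hT0 (by omega)
  rw [hxy]
  rcases le_or_gt (4 * h) x with h4 | h4
  · exact cover12 hn hj2 hT1 hT2 hw1 hw2 h4 hxT.le hy0 hyj.le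
  · rcases lt_or_ge x y with h1 | h1
    · exact cover23 hn hj1 hj2 hT1 hT2 hw1 hw2 (by omega) (by omega) (by omega) (by omega)
    · rcases le_or_gt x (y + 2 * h) with h2 | h2
      · exact cover13 hn hj1 hj2 hT1 hT2 hw1 hw2 h1 h2 hy0 hyj.le
      · obtain ⟨p, q, u, v, k, hp, hq, hu, hv, hz'⟩ := cover23 (x := x - w) (y := y + j) hn
          hj1 hj2 hT1 hT2 hw1 hw2 (by omega) (by omega) (by omega) (by omega)
        refine ⟨p, q, u, v, k - 1, hp, hq, hu, hv, ?_⟩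
        have h3 : x + T * y = (x - w + T * (y + j)) - n := by rw [hn]; ring
        rw [h3, hz']
        ring

/-- the choice of the parameters -/
theorem params (n : ℕ) (hn : 12 ≤ n) : ∃ h i : ℕ, ∃ j T w : ℤ, 1 ≤ h ∧ 12 * (h * h) ≤ n ∧
    i * i ≤ h ∧ (n : ℤ) = j * T - w ∧
    2 * (h : ℤ) - (25 * i + 19) ≤ j ∧ j ≤ 2 * h + (25 * i + 19) ∧
    6 * (h : ℤ) - (25 * i + 19) ≤ T ∧ T ≤ 6 * h + (25 * i + 19) ∧
    2 * (h : ℤ) - (25 * i + 19) ≤ w ∧ w ≤ 2 * h + (25 * i + 19) ∧ 0 ≤ w ∧ 0 < T := by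
  obtain ⟨h, hh⟩ : ∃ h : ℕ, h = Nat.sqrt (n / 12) := ⟨_, rfl⟩
  have h1 : h * h ≤ n / 12 := by rw [hh]; exact Nat.sqrt_le _
  have h2 : n / 12 < (h + 1) * (h + 1) := by rw [hh]; exact Nat.lt_succ_sqrt _
  have hh1 : 1 ≤ h := by
    rw [hh]
    exact Nat.sqrt_pos.2 (by omega)
  have h3 : 12 * (h * h) ≤ n := by omega
  have h4 : n < 12 * (h * h) + 24 * h + 12 := by
    have h5 : (h + 1) * (h + 1) = h * h + 2 * h + 1 := by ring
    omega
  obtain ⟨r, hr⟩ : ∃ r : ℕ, r = n - 12 * (h * h) := ⟨_, rfl⟩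
  have hr2 : r < 24 * h + 12 := by omega
  obtain ⟨s, hs⟩ : ∃ s : ℕ, s = (r + 4 * h - 1) / (2 * h) := ⟨_, rfl⟩
  have hs1 : s * (2 * h) ≤ r + 4 * h - 1 := by rw [hs]; exact Nat.div_mul_le_self _ _
  have hs2 : r + 4 * h - 1 < (s + 1) * (2 * h) := by
    rw [hs]
    have h6 := Nat.div_add_mod (r + 4 * h - 1) (2 * h)
    have h7 := Nat.mod_lt (r + 4 * h - 1) (show 0 < 2 * h by omega)
    calc r + 4 * h - 1 = 2 * h * ((r + 4 * h - 1) / (2 * h)) + (r + 4 * h - 1) % (2 * h) := h6.symm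
      _ < 2 * h * ((r + 4 * h - 1) / (2 * h)) + 2 * h := by omega
      _ = ((r + 4 * h - 1) / (2 * h) + 1) * (2 * h) := by ring
  have hs3 : s ≤ 19 := by
    by_contra hc
    have h8 : 20 * (2 * h) ≤ s * (2 * h) := Nat.mul_le_mul_right _ (by omega)
    omega
  have hs4 : (s + 1) * (2 * h) = s * (2 * h) + 2 * h := by ring
  obtain ⟨v, hv⟩ : ∃ v : ℕ, s * (2 * h) = r + 2 * h + v :=
    ⟨s * (2 * h) - (r + 2 * h), by omega⟩
  have hv2 : v < 2 * h := by omega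
  obtain ⟨i, hi⟩ : ∃ i : ℕ, i = Nat.sqrt (v / 3) := ⟨_, rfl⟩
  have hi1 : i * i ≤ v / 3 := by rw [hi]; exact Nat.sqrt_le _
  have hi2 : v / 3 < (i + 1) * (i + 1) := by rw [hi]; exact Nat.lt_succ_sqrt _
  have hi3 : (i + 1) * (i + 1) = i * i + 2 * i + 1 := by ring
  have hih : i * i ≤ h := by omega
  have hih' : i ≤ h := le_trans (Nat.le_mul_self i) hih
  have his : i * s ≤ 19 * i := by
    calc i * s ≤ i * 19 := Nat.mul_le_mul_left _ hs3
      _ = 19 * i := by ring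
  have hw : (2 * (h : ℤ) + i) * (6 * h + s - 3 * i) - n = 2 * h + v - 3 * (i * i) + i * s := by
    have hn' : (n : ℤ) = 12 * (h * h) + r := by
      have : n = 12 * (h * h) + r := by omega
      exact_mod_cast this
    have hv' : (s : ℤ) * (2 * h) = r + 2 * h + v := by exact_mod_cast hv
    rw [hn']
    linear_combination hv'
  have hi1' : 3 * ((i : ℤ) * i) ≤ v := by
    have : 3 * (i * i) ≤ v := by omega
    exact_mod_cast this
  have hi2' : (v : ℤ) ≤ 3 * (i * i) + 6 * i + 3 := by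
    have : v ≤ 3 * (i * i) + 6 * i + 3 := by omega
    exact_mod_cast this
  have his' : (i : ℤ) * s ≤ 19 * i := by exact_mod_cast his
  have his0 : 0 ≤ (i : ℤ) * s := by positivity
  refine ⟨h, i, 2 * h + i, 6 * h + s - 3 * i, (2 * (h : ℤ) + i) * (6 * h + s - 3 * i) - n,
    hh1, h3, hih, by ring, by omega, by omega, by omega, by omega, ?_, ?_, ?_, by omega⟩
  · rw [hw]; linarith
  · rw [hw]; linarith
  · rw [hw]; linarith

/-- the upper bound for `phi`, with the parameters -/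
theorem phi_le (n h i : ℕ) (j T w : ℤ) (hn0 : 12 ≤ n)
    (hn : (n : ℤ) = j * T - w)
    (hj1 : 2 * (h : ℤ) - (25 * i + 19) ≤ j) (hj2 : j ≤ 2 * h + (25 * i + 19))
    (hT1 : 6 * (h : ℤ) - (25 * i + 19) ≤ T) (hT2 : T ≤ 6 * h + (25 * i + 19))
    (hw1 : 2 * (h : ℤ) - (25 * i + 19) ≤ w) (hw2 : w ≤ 2 * h + (25 * i + 19)) (hw0 : 0 ≤ w)
    (hT0 : 0 < T) : phi n 2 ≤ 3 * h + 1200 * i + 939 := by
  classical
  obtain ⟨E, hE⟩ : ∃ E : ℤ, E = 8 * (25 * i + 19) + 4 := ⟨_, rfl⟩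
  obtain ⟨A, hA⟩ : ∃ A : Finset (ZMod n), A =
      ((Finset.Icc (2 * (h : ℤ) - E) (3 * h + E)).image (fun x : ℤ => (x : ZMod n)) ∪
        (Finset.Icc (-E) (h + E)).image (fun y : ℤ => ((2 * h + T * y : ℤ) : ZMod n))) ∪
        (Finset.Icc (-E) (h + E)).image (fun i : ℤ => ((4 * h + i + T * i : ℤ) : ZMod n)) :=
    ⟨_, rfl⟩
  have hcard : A.card ≤ 3 * h + 1200 * i + 939 := by
    rw [hA]
    refine (Finset.card_union_le _ _).trans ?_
    have c1 := Finset.card_image_le (s := Finset.Icc (2 * (h : ℤ) - E) (3 * h + E))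
      (f := fun x : ℤ => (x : ZMod n))
    have c2 := Finset.card_image_le (s := Finset.Icc (-E) (h + E))
      (f := fun y : ℤ => ((2 * h + T * y : ℤ) : ZMod n))
    have c3 := Finset.card_image_le (s := Finset.Icc (-E) (h + E))
      (f := fun i : ℤ => ((4 * h + i + T * i : ℤ) : ZMod n))
    have c4 := Finset.card_union_le
      ((Finset.Icc (2 * (h : ℤ) - E) (3 * h + E)).image (fun x : ℤ => (x : ZMod n)))
      ((Finset.Icc (-E) (h + E)).image (fun y : ℤ => ((2 * h + T * y : ℤ) : ZMod n)))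
    rw [Int.card_Icc] at c1 c2 c3
    omega
  have hseg : ∀ p : ℤ, Seg h T E p → (p : ZMod n) ∈ A := by
    intro p hp
    rw [hA, Finset.mem_union, Finset.mem_union, Finset.mem_image, Finset.mem_image,
      Finset.mem_image]
    rcases hp with ⟨h1, h2⟩ | ⟨y, h1, h2, rfl⟩ | ⟨i, h1, h2, rfl⟩
    · exact Or.inl (Or.inl ⟨p, Finset.mem_Icc.2 ⟨h1, h2⟩, rfl⟩)
    · exact Or.inl (Or.inr ⟨y, Finset.mem_Icc.2 ⟨h1, h2⟩, rfl⟩)
    · exact Or.inr ⟨i, Finset.mem_Icc.2 ⟨h1, h2⟩, rfl⟩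
  have hspan : Spanning n 2 A := by
    refine spanning_of_pairs fun g => ?_
    have hne : NeZero n := ⟨by omega⟩
    obtain ⟨z, hz⟩ : ∃ z : ℤ, z = (g.val : ℤ) := ⟨_, rfl⟩
    have hzg : (z : ZMod n) = g := by rw [hz]; simp
    have hz0 : 0 ≤ z := by rw [hz]; exact Int.natCast_nonneg _
    have hzn : z < n := by rw [hz]; exact_mod_cast ZMod.val_lt g
    obtain ⟨p, q, u, v, k, hp, hq, hu, hv, hzz⟩ := cover hn (e := 25 * i + 19)
      hj1 hj2 hT1 hT2 hw1 hw2 hw0 hT0 z hz0 hzn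
    rw [← hE] at hp hq
    refine ⟨(p : ZMod n), hseg p hp, (q : ZMod n), hseg q hq, u, v, ?_, ?_, ?_⟩
    · rcases hu with rfl | rfl <;> simp
    · rcases hv with rfl | rfl <;> simp
    · rw [← hzg, hzz]
      simp [zsmul_eq_mul]
  have hmem : A.card ∈ {m : ℕ | ∃ A : Finset (ZMod n), A.card = m ∧ Spanning n 2 A} :=
    ⟨A, rfl, hspan⟩
  exact (Nat.sInf_le hmem).trans hcard

theorem explicit (n : ℕ) (hn : 12 ≤ n) :
    (phi n 2 : ℝ) ≤ √3 / 2 * √n + 2139 * √√n := by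
  obtain ⟨h, i, j, T, w, _, h1, h2, h3, h4, h5, h6, h7, h8, h9, h10, h11⟩ := params n hn
  have hb := phi_le n h i j T w hn h3 h4 h5 h6 h7 h8 h9 h10 h11
  have hb' : (phi n 2 : ℝ) ≤ 3 * h + 1200 * i + 939 := by exact_mod_cast hb
  have hn1 : (1 : ℝ) ≤ n := by
    have : 1 ≤ n := by omega
    exact_mod_cast this
  have hA : (3 * h : ℝ) ≤ √3 / 2 * √n := by
    have e1 : √3 / 2 * √n = √(3 / 4 * n) := by
      rw [Real.sqrt_mul (by norm_num) (n : ℝ), Real.sqrt_div (by norm_num) 4]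
      congr 2
      rw [show (4 : ℝ) = 2 ^ 2 by norm_num]
      exact (Real.sqrt_sq (by norm_num)).symm
    rw [e1]
    refine Real.le_sqrt_of_sq_le ?_
    have h1' : (12 * (h * h) : ℝ) ≤ n := by exact_mod_cast h1
    nlinarith
  have hB : (i : ℝ) ≤ √√n := by
    refine Real.le_sqrt_of_sq_le (Real.le_sqrt_of_sq_le ?_)
    have h1' : (12 * (h * h) : ℝ) ≤ n := by exact_mod_cast h1
    have h2' : ((i : ℝ) * i) ≤ h := by exact_mod_cast h2
    have h0 : 0 ≤ (i : ℝ) * i := by positivity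
    nlinarith
  have hC : (1 : ℝ) ≤ √√n := by
    refine Real.le_sqrt_of_sq_le (Real.le_sqrt_of_sq_le ?_)
    simpa using hn1
  linarith

/-- For all `n ≥ 12`, `φ±(Z_n,[0,2]) ≤ (√3/2) √n + 2139 n^(1/4)`; in particular for every
`c > √3/2` (for example some `c < 1`) the inequality `φ±(Z_n,[0,2]) ≤ c √n` holds for all large
`n`. -/
theorem result :
    (∀ n : ℕ, 12 ≤ n → (phi n 2 : ℝ) ≤ √3 / 2 * √n + 2139 * √√n) ∧
    √3 / 2 < 1 ∧ ∀ c : ℝ, √3 / 2 < c → ∀ᶠ n : ℕ in Filter.atTop, (phi n 2 : ℝ) ≤ c * √n := by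
  refine ⟨explicit, ?_, fun c hc => ?_⟩
  · have h1 : √3 < 2 := by
      rw [Real.sqrt_lt' (by norm_num)]
      norm_num
    linarith
  · have hd : 0 < c - √3 / 2 := by linarith
    obtain ⟨N, hN⟩ := exists_nat_gt ((2139 / (c - √3 / 2)) ^ 4)
    filter_upwards [Filter.eventually_ge_atTop (max 12 N)] with n hn
    have hn1 : 12 ≤ n := le_trans (le_max_left _ _) hn
    have hn2 : (N : ℝ) ≤ n := by exact_mod_cast le_trans (le_max_right _ _) hn
    have h1 := explicit n hn1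
    have h2 : 2139 / (c - √3 / 2) ≤ √√n := by
      refine Real.le_sqrt_of_sq_le (Real.le_sqrt_of_sq_le ?_)
      have h3 : ((2139 / (c - √3 / 2)) ^ 2) ^ 2 = (2139 / (c - √3 / 2)) ^ 4 := by ring
      rw [h3]
      linarith
    have h4 : 2139 ≤ (c - √3 / 2) * √√n := by
      rw [div_le_iff₀ hd] at h2
      linarith
    have h5 : √√n * √√n = √n := Real.mul_self_sqrt (Real.sqrt_nonneg _)
    have h6 : 0 ≤ √√n := Real.sqrt_nonneg _
    have h7 : 2139 * √√n ≤ (c - √3 / 2) * √n := by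
      calc 2139 * √√n ≤ ((c - √3 / 2) * √√n) * √√n := mul_le_mul_of_nonneg_right h4 h6
        _ = (c - √3 / 2) * (√√n * √√n) := by ring
        _ = (c - √3 / 2) * √n := by rw [h5]
    linarith

end Pool.Agent.Results.MP_8aa97c_co.HexagonalBound
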